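import Pool.Agent.H59.SqJ.Numeric
import Pool.Graph.R_seed8.Results.MP_801f88_co.ErrorTerms

/-!
# MP_801f88_co: the asymptotics of `log N(c)`

`N(c)` is the number of equivalence classes of `(0,1)`-matrices `A` of order `c ^ 2` with
`A ^ 2 = J`.  Result: for all large `c`,
`(c³ / 3) (log c - log log c) ≤ log N(c) ≤ (c³ / 3) (log c + 25 log log c)`,
hence `log N(c) / (c³ log c) → 1 / 3`.
-/

set_option autoImplicit false

namespace Pool.Agent.Results.MP_801f88_co.CubicLogAsymptotics

open Finset Pool.Agent.H59.SqJ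

/-- The `(0,1)`-matrices `A` of order `c ^ 2` with `A * A = J` (over the integers). -/
def Sol (c : ℕ) : Type :=
  {A : Matrix (Fin (c ^ 2)) (Fin (c ^ 2)) ℤ //
    (∀ i j, A i j = 0 ∨ A i j = 1) ∧ A * A = Matrix.of (fun _ _ => (1 : ℤ))}

/-- Equivalence: `A' = Pᵀ A P` for a permutation matrix `P`, that is
`A' i j = A (σ i) (σ j)` for a permutation `σ`. -/
def solSetoid (c : ℕ) : Setoid (Sol c) where
  r A B := ∃ σ : Equiv.Perm (Fin (c ^ 2)), ∀ i j, B.1 i j = A.1 (σ i) (σ j)
  iseqv :=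
    { refl := fun A => ⟨1, fun i j => rfl⟩
      symm := by
        rintro A B ⟨σ, h⟩
        refine ⟨σ⁻¹, fun i j => ?_⟩
        rw [h]
        simp
      trans := by
        rintro A B C ⟨σ, h⟩ ⟨τ, h'⟩
        refine ⟨σ * τ, fun i j => ?_⟩
        rw [h', h]
        simp }

/-- `N(c)`: the number of equivalence classes. -/
noncomputable def N (c : ℕ) : ℕ := Nat.card (Quotient (solSetoid c))

theorem N_eq (c : ℕ) : N c = CubicLogGrowth.N c := rfl

/-- the out-neighbourhoods -/
def outSet {c : ℕ} (A : CubicLogGrowth.Sol c) : Fin (c ^ 2) → Finset (Fin (c ^ 2)) :=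
  fun i => univ.filter (fun k => A.1 i k = 1)

theorem outSet_inj {c : ℕ} : Function.Injective (outSet (c := c)) := by
  intro A B h
  apply Subtype.ext
  funext i j
  have h1 := congrFun h i
  simp only [outSet] at h1
  have h2 : (A.1 i j = 1) ↔ (B.1 i j = 1) := by
    have := congrArg (fun S : Finset (Fin (c ^ 2)) => j ∈ S) h1
    simpa using this
  rcases A.2.1 i j with ha | ha <;> rcases B.2.1 i j with hb | hb
  · rw [ha, hb]
  · rw [ha, hb] at h2; simp at h2
  · rw [ha, hb] at h2; simp at h2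
  · rw [ha, hb]

theorem isSol_outSet {c : ℕ} (A : CubicLogGrowth.Sol c) : IsSol c (outSet A) := by
  have hrow : ∀ i, ∑ k, A.1 i k = (c : ℤ) := CubicLogGrowth.rowSum A
  have hcol : ∀ j, ∑ k, A.1 k j = (c : ℤ) := by
    intro j
    have h1 : A.1 * (A.1 * A.1) = (A.1 * A.1) * A.1 := (Matrix.mul_assoc A.1 A.1 A.1).symm
    rw [A.2.2] at h1
    have h2 := congrFun (congrFun h1 j) j
    have h3 : ∑ k, A.1 j k = ∑ k, A.1 k j := by simpa [Matrix.mul_apply] using h2
    rw [← h3, hrow]
  have hind : ∀ i k, A.1 i k = if A.1 i k = 1 then (1 : ℤ) else 0 := by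
    intro i k
    rcases A.2.1 i k with h | h <;> simp [h]
  refine ⟨fun x => ?_, fun y => ?_, fun x w => ?_⟩
  · have h := hrow x
    have h2 : ∑ k, A.1 x k = ∑ k, (if A.1 x k = 1 then (1 : ℤ) else 0) :=
      Finset.sum_congr rfl (fun k _ => hind x k)
    rw [h2, Finset.sum_boole] at h
    exact_mod_cast h
  · have h := hcol y
    have h2 : ∑ k, A.1 k y = ∑ k, (if A.1 k y = 1 then (1 : ℤ) else 0) :=
      Finset.sum_congr rfl (fun k _ => hind k y)
    rw [h2, Finset.sum_boole] at h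
    simp only [outSet, Finset.mem_filter, Finset.mem_univ, true_and]
    exact_mod_cast h
  · have h1 : (A.1 * A.1) x w = 1 := by rw [A.2.2]; rfl
    rw [Matrix.mul_apply] at h1
    have h2 : ∑ y, A.1 x y * A.1 y w =
        ∑ y, (if A.1 x y = 1 ∧ A.1 y w = 1 then (1 : ℤ) else 0) := by
      refine Finset.sum_congr rfl (fun y _ => ?_)
      rcases A.2.1 x y with h | h <;> rcases A.2.1 y w with h' | h' <;> simp [h, h']
    rw [h2, Finset.sum_boole] at h1
    have h3 : (univ.filter (fun y => A.1 x y = 1 ∧ A.1 y w = 1)).card = 1 := by exact_mod_cast h1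
    obtain ⟨y, hy⟩ := Finset.card_eq_one.1 h3
    refine ⟨y, ?_, fun z hz => ?_⟩
    · have : y ∈ univ.filter (fun y => A.1 x y = 1 ∧ A.1 y w = 1) := by
        rw [hy]; exact Finset.mem_singleton_self y
      simpa [outSet] using this
    · have : z ∈ univ.filter (fun y => A.1 x y = 1 ∧ A.1 y w = 1) := by
        simpa [outSet] using hz
      rw [hy] at this
      exact Finset.mem_singleton.1 this

theorem upper : ∃ c0 : ℕ, ∀ c : ℕ, c0 ≤ c →
    Real.log (N c : ℝ) ≤ (c : ℝ) ^ 3 / 3 * (Real.log c + 25 * Real.log (Real.log c)) := by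
  classical
  obtain ⟨c0, hc0⟩ := eventually_bound
  refine ⟨c0, fun c hc => ?_⟩
  have : Fintype (CubicLogGrowth.Sol c) := Fintype.ofFinite _
  set Ω : Finset (Fin (c ^ 2) → Finset (Fin (c ^ 2))) :=
    (univ : Finset (CubicLogGrowth.Sol c)).image outSet with hΩ
  have hcard : Ω.card = Nat.card (CubicLogGrowth.Sol c) := by
    rw [hΩ, Finset.card_image_of_injective _ outSet_inj, Finset.card_univ,
      Nat.card_eq_fintype_card]
  have hN : N c ≤ Ω.card := by
    rw [hcard, N_eq]
    exact Nat.card_le_card_of_surjective (Quotient.mk (CubicLogGrowth.solSetoid c))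
      Quotient.mk_surjective
  have hN0 : 0 < N c := by rw [N_eq]; exact CubicLogGrowth.N_pos c
  have h1 := hc0 c hc Ω (fun o ho => by
    obtain ⟨A, _, rfl⟩ := Finset.mem_image.1 ho
    exact isSol_outSet A) (lt_of_lt_of_le hN0 hN)
  exact (Real.log_le_log (by exact_mod_cast hN0) (by exact_mod_cast hN)).trans h1

theorem tendsto_log : Filter.Tendsto (fun c : ℕ => Real.log c) Filter.atTop Filter.atTop :=
  Real.tendsto_log_atTop.comp tendsto_natCast_atTop_atTop

theorem both : ∃ c0 : ℕ, ∀ c : ℕ, c0 ≤ c →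
    (c : ℝ) ^ 3 / 3 * (Real.log c - Real.log (Real.log c)) ≤ Real.log (N c : ℝ) ∧
    Real.log (N c : ℝ) ≤ (c : ℝ) ^ 3 / 3 * (Real.log c + 25 * Real.log (Real.log c)) := by
  obtain ⟨c1, hc1⟩ := upper
  have hloglog : Filter.Tendsto (fun c : ℕ => Real.log (Real.log c)) Filter.atTop Filter.atTop :=
    Real.tendsto_log_atTop.comp tendsto_log
  obtain ⟨c2, hc2⟩ := Filter.eventually_atTop.1 (hloglog.eventually_ge_atTop 14)
  refine ⟨max (max c1 c2) 3, fun c hc => ⟨?_, hc1 c (by omega)⟩⟩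
  have h1 := ErrorTerms.lower_all c (by omega)
  have h2 := hc2 c (by omega)
  rw [N_eq]
  refine le_trans (mul_le_mul_of_nonneg_left ?_ (by positivity)) h1
  linarith

theorem limit : Filter.Tendsto (fun c : ℕ => Real.log (N c : ℝ) / ((c : ℝ) ^ 3 * Real.log c))
    Filter.atTop (nhds (1 / 3)) := by
  obtain ⟨c0, hc0⟩ := both
  have h0 : Filter.Tendsto (fun c : ℕ => Real.log (Real.log c) / Real.log c) Filter.atTop
      (nhds 0) :=
    (Real.isLittleO_log_id_atTop.tendsto_div_nhds_zero).comp tendsto_log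
  have hlo : Filter.Tendsto (fun c : ℕ => 1 / 3 * (1 - Real.log (Real.log c) / Real.log c))
      Filter.atTop (nhds (1 / 3)) := by
    have := (h0.const_sub 1).const_mul (1 / 3 : ℝ)
    simpa using this
  have hhi : Filter.Tendsto (fun c : ℕ => 1 / 3 * (1 + 25 * (Real.log (Real.log c) / Real.log c)))
      Filter.atTop (nhds (1 / 3)) := by
    have := ((h0.const_mul 25).const_add 1).const_mul (1 / 3 : ℝ)
    simpa using this
  have hev : ∀ᶠ c : ℕ in Filter.atTop, c0 ≤ c ∧ 1 ≤ c ∧ 1 ≤ Real.log c :=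
    (Filter.eventually_ge_atTop c0).and ((Filter.eventually_ge_atTop 1).and
      (tendsto_log.eventually_ge_atTop 1))
  refine tendsto_of_tendsto_of_tendsto_of_le_of_le' hlo hhi ?_ ?_
  · filter_upwards [hev] with c hc
    have hcR : (0 : ℝ) < c := by exact_mod_cast hc.2.1
    have hl : (0 : ℝ) < Real.log c := by linarith [hc.2.2]
    rw [le_div_iff₀ (by positivity)]
    refine le_trans (le_of_eq ?_) (hc0 c hc.1).1
    field_simp
  · filter_upwards [hev] with c hc
    have hcR : (0 : ℝ) < c := by exact_mod_cast hc.2.1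
    have hl : (0 : ℝ) < Real.log c := by linarith [hc.2.2]
    rw [div_le_iff₀ (by positivity)]
    refine le_trans (hc0 c hc.1).2 (le_of_eq ?_)
    field_simp

/-- For all large `c`, `(c³/3)(log c - log log c) ≤ log N(c) ≤ (c³/3)(log c + 25 log log c)`;
in particular `log N(c) / (c³ log c) → 1/3`. -/
theorem result :
    (∃ c0 : ℕ, ∀ c : ℕ, c0 ≤ c →
      (c : ℝ) ^ 3 / 3 * (Real.log c - Real.log (Real.log c)) ≤ Real.log (N c : ℝ) ∧
      Real.log (N c : ℝ) ≤ (c : ℝ) ^ 3 / 3 * (Real.log c + 25 * Real.log (Real.log c))) ∧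
    Filter.Tendsto (fun c : ℕ => Real.log (N c : ℝ) / ((c : ℝ) ^ 3 * Real.log c))
      Filter.atTop (nhds (1 / 3)) :=
  ⟨both, limit⟩

end Pool.Agent.Results.MP_801f88_co.CubicLogAsymptotics
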